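import Mathlib

/-!
A homogeneous cone in dimension five which is not a rank-one generated hyperbolicity cone.
-/

namespace Pool.Agent.Results.MP_3ab8ef_ag.NotROG

open Polynomial

variable {n : ℕ}

/-- The univariate polynomial `t ↦ p (x - t e)`. -/
noncomputable def lineP (p : MvPolynomial (Fin n) ℝ) (e x : Fin n → ℝ) : ℝ[X] :=
  MvPolynomial.aeval (fun i => C (x i) - X * C (e i)) p

/-- The univariate polynomial `t ↦ p (t e - x)`, whose roots are the eigenvalues of `x`. -/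
noncomputable def chi (p : MvPolynomial (Fin n) ℝ) (e x : Fin n → ℝ) : ℝ[X] :=
  MvPolynomial.aeval (fun i => X * C (e i) - C (x i)) p

/-- `p` is a homogeneous polynomial which is hyperbolic along `e`: `p e > 0` and all the roots
of `t ↦ p (x - t e)` are real, for all `x`. -/
def Hyperbolic (p : MvPolynomial (Fin n) ℝ) (e : Fin n → ℝ) : Prop :=
  (∃ d, p.IsHomogeneous d) ∧ 0 < MvPolynomial.eval e p ∧ ∀ x, (lineP p e x).Splits

/-- The hyperbolicity cone: all eigenvalues are nonnegative. -/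
def hypCone (p : MvPolynomial (Fin n) ℝ) (e : Fin n → ℝ) : Set (Fin n → ℝ) :=
  {x | ∀ t ∈ (chi p e x).roots, 0 ≤ t}

/-- The rank: the number of nonzero eigenvalues, counted with multiplicity. -/
noncomputable def rank (p : MvPolynomial (Fin n) ℝ) (e x : Fin n → ℝ) : ℕ :=
  ((chi p e x).roots.filter (· ≠ 0)).card

/-- The ray generated by `v`. -/
def ray (v : Fin n → ℝ) : Set (Fin n → ℝ) := {w | ∃ t : ℝ, 0 ≤ t ∧ w = t • v}

/-- `F` is an extreme ray of the cone `K`: it is a face of `K` and is generated by a nonzero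
vector. -/
def IsExtremeRay (K F : Set (Fin n → ℝ)) : Prop :=
  (∃ v, v ≠ 0 ∧ F = ray v) ∧ F ⊆ K ∧ ∀ x ∈ K, ∀ y ∈ K, x + y ∈ F → x ∈ F ∧ y ∈ F

/-- Closed convex cones. -/
def IsClosedConvexCone (K : Set (Fin n → ℝ)) : Prop :=
  IsClosed K ∧ (0 : Fin n → ℝ) ∈ K ∧ (∀ x ∈ K, ∀ y ∈ K, x + y ∈ K) ∧
    ∀ x ∈ K, ∀ t : ℝ, 0 ≤ t → t • x ∈ K

/-- Homogeneous cones: pointed full-dimensional closed convex cones whose group of linear
automorphisms acts transitively on the interior. -/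
def IsHomogeneousCone (K : Set (Fin n → ℝ)) : Prop :=
  IsClosedConvexCone K ∧ (∀ x ∈ K, -x ∈ K → x = 0) ∧ (interior K).Nonempty ∧
    ∀ x ∈ interior K, ∀ y ∈ interior K,
      ∃ A : (Fin n → ℝ) ≃ₗ[ℝ] (Fin n → ℝ), A '' K = K ∧ A x = y

/-- The cone of all `(a, b, c, x, y)` with `a, b, c ≥ 0`, `x ^ 2 ≤ a b` and `y ^ 2 ≤ a c`. -/
def K5 : Set (Fin 5 → ℝ) :=
  {z | 0 ≤ z 0 ∧ 0 ≤ z 1 ∧ 0 ≤ z 2 ∧ z 3 ^ 2 ≤ z 0 * z 1 ∧ z 4 ^ 2 ≤ z 0 * z 2}

/-! ### `K5` is a homogeneous cone -/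

theorem conv_aux {a b x a' b' x' : ℝ} (ha : 0 ≤ a) (hb : 0 ≤ b) (h : x ^ 2 ≤ a * b)
    (ha' : 0 ≤ a') (hb' : 0 ≤ b') (h' : x' ^ 2 ≤ a' * b') : 2 * (x * x') ≤ a * b' + a' * b := by
  have h1 : (2 * (x * x')) ^ 2 ≤ (a * b' + a' * b) ^ 2 := by
    have h2 : (2 * (x * x')) ^ 2 = 4 * (x ^ 2 * x' ^ 2) := by ring
    have h3 : x ^ 2 * x' ^ 2 ≤ (a * b) * (a' * b') :=
      mul_le_mul h h' (sq_nonneg _) (mul_nonneg ha hb)
    nlinarith [sq_nonneg (a * b' - a' * b)]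
  have h4 : 0 ≤ a * b' + a' * b := add_nonneg (mul_nonneg ha hb') (mul_nonneg ha' hb)
  exact (abs_le_of_sq_le_sq' h1 h4).2

theorem K5_cone : IsClosedConvexCone K5 := by
  refine ⟨?_, ?_, ?_, ?_⟩
  · have e : K5 = {z : Fin 5 → ℝ | 0 ≤ z 0} ∩ ({z | 0 ≤ z 1} ∩ ({z | 0 ≤ z 2} ∩
        ({z | z 3 ^ 2 ≤ z 0 * z 1} ∩ {z | z 4 ^ 2 ≤ z 0 * z 2}))) := rfl
    rw [e]
    refine IsClosed.inter ?_ (IsClosed.inter ?_ (IsClosed.inter ?_ (IsClosed.inter ?_ ?_)))
    · exact isClosed_le continuous_const (continuous_apply 0)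
    · exact isClosed_le continuous_const (continuous_apply 1)
    · exact isClosed_le continuous_const (continuous_apply 2)
    · exact isClosed_le (by fun_prop) (by fun_prop)
    · exact isClosed_le (by fun_prop) (by fun_prop)
  · simp [K5]
  · rintro x ⟨x0, x1, x2, x3, x4⟩ y ⟨y0, y1, y2, y3, y4⟩
    refine ⟨add_nonneg x0 y0, add_nonneg x1 y1, add_nonneg x2 y2, ?_, ?_⟩
    · show (x 3 + y 3) ^ 2 ≤ (x 0 + y 0) * (x 1 + y 1)
      have := conv_aux x0 x1 x3 y0 y1 y3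
      nlinarith
    · show (x 4 + y 4) ^ 2 ≤ (x 0 + y 0) * (x 2 + y 2)
      have := conv_aux x0 x2 x4 y0 y2 y4
      nlinarith
  · rintro x ⟨x0, x1, x2, x3, x4⟩ t ht
    refine ⟨mul_nonneg ht x0, mul_nonneg ht x1, mul_nonneg ht x2, ?_, ?_⟩
    · show (t * x 3) ^ 2 ≤ (t * x 0) * (t * x 1)
      nlinarith [mul_le_mul_of_nonneg_left x3 (mul_nonneg ht ht)]
    · show (t * x 4) ^ 2 ≤ (t * x 0) * (t * x 2)
      nlinarith [mul_le_mul_of_nonneg_left x4 (mul_nonneg ht ht)]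

theorem K5_pointed : ∀ x ∈ K5, -x ∈ K5 → x = 0 := by
  rintro x ⟨x0, x1, x2, x3, x4⟩ ⟨y0, y1, y2, y3, y4⟩
  simp only [Pi.neg_apply] at y0 y1 y2 y3 y4
  have h0 : x 0 = 0 := by linarith
  have h1 : x 1 = 0 := by linarith
  have h2 : x 2 = 0 := by linarith
  rw [h0, zero_mul] at x3 x4
  have h3 : x 3 = 0 := by
    have := sq_nonneg (x 3)
    exact pow_eq_zero_iff (two_ne_zero) |>.mp (le_antisymm x3 this)
  have h4 : x 4 = 0 := by
    have := sq_nonneg (x 4)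
    exact pow_eq_zero_iff (two_ne_zero) |>.mp (le_antisymm x4 this)
  funext i
  fin_cases i
  · exact h0
  · exact h1
  · exact h2
  · exact h3
  · exact h4

/-- The open part of the cone. -/
def U5 : Set (Fin 5 → ℝ) :=
  {z | 0 < z 0 ∧ 0 < z 1 ∧ 0 < z 2 ∧ z 3 ^ 2 < z 0 * z 1 ∧ z 4 ^ 2 < z 0 * z 2}

theorem U5_subset : U5 ⊆ K5 := fun _ h => ⟨h.1.le, h.2.1.le, h.2.2.1.le, h.2.2.2.1.le,
  h.2.2.2.2.le⟩

theorem U5_open : IsOpen U5 := by
  have e : U5 = {z : Fin 5 → ℝ | 0 < z 0} ∩ ({z | 0 < z 1} ∩ ({z | 0 < z 2} ∩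
      ({z | z 3 ^ 2 < z 0 * z 1} ∩ {z | z 4 ^ 2 < z 0 * z 2}))) := rfl
  rw [e]
  refine IsOpen.inter ?_ (IsOpen.inter ?_ (IsOpen.inter ?_ (IsOpen.inter ?_ ?_)))
  · exact isOpen_lt continuous_const (continuous_apply 0)
  · exact isOpen_lt continuous_const (continuous_apply 1)
  · exact isOpen_lt continuous_const (continuous_apply 2)
  · exact isOpen_lt (by fun_prop) (by fun_prop)
  · exact isOpen_lt (by fun_prop) (by fun_prop)

/-- a point from which one can move a little in every direction inside `K5` lies in `U5` -/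
theorem mem_U5_of {z : Fin 5 → ℝ} (h : ∀ u : Fin 5 → ℝ, ∃ s : ℝ, 0 < s ∧ z + s • u ∈ K5) :
    z ∈ U5 := by
  obtain ⟨s, hs, h0, h1, h2, h3, h4⟩ := h ![-1, 0, 0, 0, 0]
  obtain ⟨s', hs', h0', h1', h2', h3', h4'⟩ := h ![0, -1, 0, 0, 0]
  obtain ⟨s'', hs'', h0'', h1'', h2'', h3'', h4''⟩ := h ![0, 0, -1, 0, 0]
  simp at h0 h1 h2 h3 h4 h0' h1' h2' h3' h4' h0'' h1'' h2'' h3'' h4''
  have a0 : 0 < z 0 := by linarith
  have b0 : 0 < z 1 := by linarith
  have c0 : 0 < z 2 := by linarith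
  refine ⟨a0, b0, c0, ?_, ?_⟩
  · nlinarith [mul_pos a0 hs']
  · nlinarith [mul_pos a0 hs'']

theorem interior_K5 : interior K5 = U5 := by
  refine subset_antisymm (fun z hz => ?_) (interior_maximal U5_subset U5_open)
  refine mem_U5_of fun u => ?_
  have hc : Continuous fun s : ℝ => z + s • u := by fun_prop
  have h0 : (fun s : ℝ => z + s • u) 0 ∈ interior K5 := by simpa using hz
  have h1 : (fun s : ℝ => z + s • u) ⁻¹' interior K5 ∈ nhds (0 : ℝ) :=
    hc.continuousAt.preimage_mem_nhds (isOpen_interior.mem_nhds h0)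
  obtain ⟨ε, hε, hb⟩ := Metric.mem_nhds_iff.mp h1
  refine ⟨ε / 2, by positivity, interior_subset (hb ?_)⟩
  rw [Metric.mem_ball, Real.dist_eq, sub_zero, abs_of_pos (by positivity)]
  linarith

/-- the linear maps `(a, b, c, x, y) ↦ (α² a, β² b + 2 s αβ x + s² α² a, …)` -/
def Tfun (α β γ s t : ℝ) (z : Fin 5 → ℝ) : Fin 5 → ℝ :=
  ![α ^ 2 * z 0, β ^ 2 * z 1 + 2 * s * α * β * z 3 + s ^ 2 * α ^ 2 * z 0,
    γ ^ 2 * z 2 + 2 * t * α * γ * z 4 + t ^ 2 * α ^ 2 * z 0,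
    α * β * z 3 + s * α ^ 2 * z 0, α * γ * z 4 + t * α ^ 2 * z 0]

theorem Tfun_mem {α β γ s t : ℝ} (hα : 0 < α) (hβ : 0 < β) (hγ : 0 < γ) {z : Fin 5 → ℝ}
    (hz : z ∈ K5) : Tfun α β γ s t z ∈ K5 := by
  obtain ⟨h0, h1, h2, h3, h4⟩ := hz
  have key : ∀ {a b x β s : ℝ}, 0 ≤ a → 0 ≤ b → x ^ 2 ≤ a * b →
      0 ≤ β ^ 2 * b + 2 * s * α * β * x + s ^ 2 * α ^ 2 * a := by
    intro a b x β s ha hb h
    have := conv_aux (a := a) (b := b) (x := x) (a' := β ^ 2) (b' := s ^ 2 * α ^ 2)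
      (x' := -(s * α * β)) ha hb h (sq_nonneg _) (by positivity) (by nlinarith)
    nlinarith
  refine ⟨?_, ?_, ?_, ?_, ?_⟩
  · show 0 ≤ α ^ 2 * z 0
    positivity
  · exact key h0 h1 h3
  · exact key h0 h2 h4
  · show (α * β * z 3 + s * α ^ 2 * z 0) ^ 2 ≤
      (α ^ 2 * z 0) * (β ^ 2 * z 1 + 2 * s * α * β * z 3 + s ^ 2 * α ^ 2 * z 0)
    nlinarith [mul_le_mul_of_nonneg_left h3 (show 0 ≤ (α * β) ^ 2 by positivity)]
  · show (α * γ * z 4 + t * α ^ 2 * z 0) ^ 2 ≤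
      (α ^ 2 * z 0) * (γ ^ 2 * z 2 + 2 * t * α * γ * z 4 + t ^ 2 * α ^ 2 * z 0)
    nlinarith [mul_le_mul_of_nonneg_left h4 (show 0 ≤ (α * γ) ^ 2 by positivity)]

theorem Tfun_inv {α β γ s t : ℝ} (hα : 0 < α) (hβ : 0 < β) (hγ : 0 < γ) (z : Fin 5 → ℝ) :
    Tfun α⁻¹ β⁻¹ γ⁻¹ (-(s * α * β⁻¹)) (-(t * α * γ⁻¹)) (Tfun α β γ s t z) = z := by
  have a0 := hα.ne'
  have b0 := hβ.ne'
  have c0 := hγ.ne'
  funext i
  fin_cases i <;> simp [Tfun] <;> field_simp <;> ring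

theorem Tfun_inv' {α β γ s t : ℝ} (hα : 0 < α) (hβ : 0 < β) (hγ : 0 < γ) (z : Fin 5 → ℝ) :
    Tfun α β γ s t (Tfun α⁻¹ β⁻¹ γ⁻¹ (-(s * α * β⁻¹)) (-(t * α * γ⁻¹)) z) = z := by
  have a0 := hα.ne'
  have b0 := hβ.ne'
  have c0 := hγ.ne'
  funext i
  fin_cases i <;> simp [Tfun] <;> field_simp <;> ring

/-- the linear automorphism -/
noncomputable def Tequiv {α β γ : ℝ} (s t : ℝ) (hα : 0 < α) (hβ : 0 < β) (hγ : 0 < γ) :
    (Fin 5 → ℝ) ≃ₗ[ℝ] (Fin 5 → ℝ) where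
  toFun := Tfun α β γ s t
  invFun := Tfun α⁻¹ β⁻¹ γ⁻¹ (-(s * α * β⁻¹)) (-(t * α * γ⁻¹))
  left_inv := Tfun_inv hα hβ hγ
  right_inv := Tfun_inv' hα hβ hγ
  map_add' x y := by
    funext i
    fin_cases i <;> simp [Tfun] <;> ring
  map_smul' c x := by
    funext i
    fin_cases i <;> simp [Tfun] <;> ring

theorem Tequiv_image {α β γ : ℝ} (s t : ℝ) (hα : 0 < α) (hβ : 0 < β) (hγ : 0 < γ) :
    Tequiv s t hα hβ hγ '' K5 = K5 := by
  refine subset_antisymm ?_ fun z hz => ?_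
  · rintro _ ⟨z, hz, rfl⟩
    exact Tfun_mem hα hβ hγ hz
  · exact ⟨Tfun α⁻¹ β⁻¹ γ⁻¹ (-(s * α * β⁻¹)) (-(t * α * γ⁻¹)) z,
      Tfun_mem (inv_pos.mpr hα) (inv_pos.mpr hβ) (inv_pos.mpr hγ) hz, Tfun_inv' hα hβ hγ z⟩

/-- every interior point is the image of `(1, 1, 1, 0, 0)` -/
theorem exists_T {z : Fin 5 → ℝ} (hz : z ∈ U5) :
    ∃ A : (Fin 5 → ℝ) ≃ₗ[ℝ] (Fin 5 → ℝ), A '' K5 = K5 ∧ A ![1, 1, 1, 0, 0] = z := by
  obtain ⟨h0, h1, h2, h3, h4⟩ := hz
  have hb : 0 < z 1 - z 3 ^ 2 / z 0 := by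
    rw [sub_pos, div_lt_iff₀ h0]
    linarith
  have hc : 0 < z 2 - z 4 ^ 2 / z 0 := by
    rw [sub_pos, div_lt_iff₀ h0]
    linarith
  refine ⟨Tequiv (z 3 / z 0) (z 4 / z 0) (Real.sqrt_pos.mpr h0) (Real.sqrt_pos.mpr hb)
    (Real.sqrt_pos.mpr hc), Tequiv_image _ _ _ _ _, ?_⟩
  have e0 := Real.sq_sqrt h0.le
  have e1 := Real.sq_sqrt hb.le
  have e2 := Real.sq_sqrt hc.le
  show Tfun _ _ _ _ _ _ = z
  have h0' := h0.ne'
  funext i
  fin_cases i
  · simp [Tfun, e0]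
  · simp [Tfun, e0, e1]
    field_simp
    ring
  · simp [Tfun, e0, e2]
    field_simp
    ring
  · simp [Tfun, e0]
    field_simp
  · simp [Tfun, e0]
    field_simp

theorem K5_homogeneous : IsHomogeneousCone K5 := by
  refine ⟨K5_cone, K5_pointed, ⟨![1, 1, 1, 0, 0], ?_⟩, fun x hx y hy => ?_⟩
  · rw [interior_K5]
    refine ⟨?_, ?_, ?_, ?_, ?_⟩ <;> simp
  · rw [interior_K5] at hx hy
    obtain ⟨A, hA, hA'⟩ := exists_T hx
    obtain ⟨B, hB, hB'⟩ := exists_T hy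
    refine ⟨A.symm.trans B, ?_, ?_⟩
    · have h1 : A.symm '' K5 = K5 := by
        conv_lhs => rw [← hA]
        rw [← Set.image_comp]
        convert Set.image_id K5
        funext z
        simp
      have h2 : (A.symm.trans B : (Fin 5 → ℝ) → (Fin 5 → ℝ)) '' K5 = B '' (A.symm '' K5) := by
        rw [← Set.image_comp]
        rfl
      rw [h2, h1, hB]
    · show B (A.symm x) = y
      rw [← hA', LinearEquiv.symm_apply_apply, hB']

/-! ### general facts on hyperbolicity cones -/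

theorem eval_chi (p : MvPolynomial (Fin n) ℝ) (e x : Fin n → ℝ) (t : ℝ) :
    (chi p e x).eval t = MvPolynomial.eval (t • e - x) p := by
  unfold chi
  have h := MvPolynomial.comp_aeval_apply (f := fun i => (X * C (e i) - C (x i) : ℝ[X]))
    (Polynomial.aeval (R := ℝ) t) p
  rw [← Polynomial.coe_aeval_eq_eval, h, MvPolynomial.aeval_eq_eval]
  congr 2
  funext i
  simp
  exact mul_comm _ _

theorem aeval_mul_homog {A : Type*} [CommRing A] [Algebra ℝ A] {p : MvPolynomial (Fin n) ℝ}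
    {d : ℕ} (hp : p.IsHomogeneous d) (c : A) (f : Fin n → A) :
    MvPolynomial.aeval (fun i => c * f i) p = c ^ d * MvPolynomial.aeval f p := by
  rw [MvPolynomial.aeval_def, MvPolynomial.aeval_def, MvPolynomial.eval₂_eq',
    MvPolynomial.eval₂_eq', Finset.mul_sum]
  refine Finset.sum_congr rfl fun m hm => ?_
  have h1 : ∑ i, m i = d := by
    have := hp (MvPolynomial.mem_support_iff.mp hm)
    rw [← this, ← Finsupp.degree_eq_sum, Finsupp.degree_eq_weight_one]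
    rfl
  simp only [mul_pow]
  rw [Finset.prod_mul_distrib, Finset.prod_pow_eq_pow_sum, h1]
  ring

theorem eval_smul_homog {p : MvPolynomial (Fin n) ℝ} {d : ℕ} (hp : p.IsHomogeneous d) (c : ℝ)
    (x : Fin n → ℝ) : MvPolynomial.eval (c • x) p = c ^ d * MvPolynomial.eval x p := by
  have := aeval_mul_homog hp c x
  exact this

theorem near {p : MvPolynomial (Fin n) ℝ} {q : Fin n → ℝ} (hq : MvPolynomial.eval q p ≠ 0)
    (u : Fin n → ℝ) :
    ∃ ε : ℝ, 0 < ε ∧ ∀ s : ℝ, |s| ≤ ε → MvPolynomial.eval (q + s • u) p ≠ 0 := by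
  have hc : Continuous fun s : ℝ => MvPolynomial.eval (q + s • u) p :=
    (MvPolynomial.continuous_eval p).comp (by fun_prop)
  have h1 : (fun s : ℝ => MvPolynomial.eval (q + s • u) p) ⁻¹' {0}ᶜ ∈ nhds (0 : ℝ) := by
    refine hc.continuousAt.preimage_mem_nhds (isOpen_compl_singleton.mem_nhds ?_)
    simpa using hq
  obtain ⟨ε, hε, hb⟩ := Metric.mem_nhds_iff.mp h1
  refine ⟨ε / 2, by positivity, fun s hs => ?_⟩
  have : s ∈ Metric.ball (0 : ℝ) ε := by
    rw [Metric.mem_ball, Real.dist_eq, sub_zero]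
    linarith
  exact hb this

theorem chi_ne_zero {p : MvPolynomial (Fin n) ℝ} {d : ℕ} (hp : p.IsHomogeneous d)
    {e : Fin n → ℝ} (he : 0 < MvPolynomial.eval e p) (x : Fin n → ℝ) : chi p e x ≠ 0 := by
  obtain ⟨ε, hε, h⟩ := near he.ne' (-x)
  intro h0
  have h1 := eval_chi p e x (ε⁻¹)
  rw [h0, eval_zero] at h1
  have h2 : ε⁻¹ • e - x = ε⁻¹ • (e + ε • (-x)) := by
    rw [smul_add, smul_smul, inv_mul_cancel₀ hε.ne', one_smul, sub_eq_add_neg]
  rw [h2, eval_smul_homog hp] at h1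
  exact mul_ne_zero (by positivity) (h ε (by rw [abs_of_pos hε])) h1.symm

theorem mem_hypCone {p : MvPolynomial (Fin n) ℝ} {d : ℕ} (hp : p.IsHomogeneous d)
    {e : Fin n → ℝ} (he : 0 < MvPolynomial.eval e p) (x : Fin n → ℝ) :
    x ∈ hypCone p e ↔ ∀ t : ℝ, 0 < t → MvPolynomial.eval (x + t • e) p ≠ 0 := by
  have hc := chi_ne_zero hp he x
  have key : ∀ t : ℝ, MvPolynomial.eval (x + t • e) p = 0 ↔ -t ∈ (chi p e x).roots := by
    intro t
    rw [mem_roots hc, IsRoot.def, eval_chi]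
    have h2 : (-t) • e - x = (-1 : ℝ) • (x + t • e) := by
      rw [smul_add, smul_smul, neg_one_smul, neg_one_mul]
      abel
    rw [h2, eval_smul_homog hp]
    have : ((-1 : ℝ)) ^ d ≠ 0 := pow_ne_zero _ (by norm_num)
    simp [this]
  constructor
  · intro hx t ht h0
    have := hx _ ((key t).mp h0)
    linarith
  · intro h t ht
    by_contra hneg
    refine h (-t) (by linarith [not_le.mp hneg]) ((key (-t)).mpr ?_)
    rwa [neg_neg]

theorem dir_mem {p : MvPolynomial (Fin n) ℝ} {d : ℕ} (hp : p.IsHomogeneous d)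
    {e : Fin n → ℝ} (he : 0 < MvPolynomial.eval e p) (u : Fin n → ℝ) :
    ∃ s : ℝ, 0 < s ∧ e + s • u ∈ hypCone p e := by
  obtain ⟨ε, hε, h⟩ := near he.ne' u
  refine ⟨ε, hε, (mem_hypCone hp he _).mpr fun t ht => ?_⟩
  have h1 : 0 < 1 + t := by linarith
  have h2 : e + ε • u + t • e = (1 + t) • (e + (ε / (1 + t)) • u) := by
    rw [smul_add, smul_smul, mul_div_cancel₀ _ h1.ne', add_smul, one_smul]
    abel
  rw [h2, eval_smul_homog hp]
  refine mul_ne_zero (by positivity) (h _ ?_)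
  rw [abs_of_pos (by positivity)]
  exact div_le_self hε.le (by linarith)

theorem bdry {p : MvPolynomial (Fin n) ℝ} {d : ℕ} (hp : p.IsHomogeneous d)
    {e : Fin n → ℝ} (he : 0 < MvPolynomial.eval e p) {q : Fin n → ℝ} (hq : q ∈ hypCone p e)
    (hb : ∀ ε : ℝ, 0 < ε → q - ε • e ∉ hypCone p e) : MvPolynomial.eval q p = 0 := by
  by_contra h0
  obtain ⟨ε, hε, h⟩ := near h0 e
  have h1 := hb ε hε
  rw [mem_hypCone hp he] at h1 hq
  push Not at h1
  obtain ⟨t, ht, h2⟩ := h1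
  have h3 : q - ε • e + t • e = q + (t - ε) • e := by
    rw [sub_smul]
    abel
  rw [h3] at h2
  by_cases h4 : 0 < t - ε
  · exact hq _ h4 h2
  · refine h _ ?_ h2
    rw [abs_le]
    constructor <;> linarith

theorem natDegree_aeval_le {p : MvPolynomial (Fin n) ℝ} {d : ℕ} (hp : p.IsHomogeneous d)
    (f : Fin n → ℝ[X]) (hf : ∀ i, (f i).natDegree ≤ 1) :
    (MvPolynomial.aeval f p).natDegree ≤ d := by
  rw [MvPolynomial.aeval_def, MvPolynomial.eval₂_eq']
  refine natDegree_sum_le_of_forall_le _ _ fun m hm => ?_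
  have h1 : ∑ i, m i = d := by
    have := hp (MvPolynomial.mem_support_iff.mp hm)
    rw [← this, ← Finsupp.degree_eq_sum, Finsupp.degree_eq_weight_one]
    rfl
  refine natDegree_mul_le.trans ?_
  have h2 : (algebraMap ℝ ℝ[X] (MvPolynomial.coeff m p)).natDegree = 0 := natDegree_C _
  rw [h2, zero_add]
  refine (natDegree_prod_le _ _).trans ?_
  rw [← h1]
  refine Finset.sum_le_sum fun i _ => ?_
  refine natDegree_pow_le.trans ?_
  have := Nat.mul_le_mul_left (m i) (hf i)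
  simpa using this

/-- if `s ↦ p (e + s v)` has two nonzero roots, with multiplicity, then the rank of `v` is at
least two -/
theorem two_le_rank {p : MvPolynomial (Fin n) ℝ} {d : ℕ} (hp : p.IsHomogeneous d)
    {e v : Fin n → ℝ} (he : 0 < MvPolynomial.eval e p) {s1 s2 : ℝ} (h1 : s1 ≠ 0) (h2 : s2 ≠ 0)
    (k : ℝ[X])
    (hg : MvPolynomial.aeval (fun i => C (e i) + X * C (v i)) p = (X - C s2) * ((X - C s1) * k)) :
    2 ≤ rank p e v := by
  set g : ℝ[X] := MvPolynomial.aeval (fun i => C (e i) + X * C (v i)) p with hgdef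
  have evg : ∀ s : ℝ, g.eval s = MvPolynomial.eval (e + s • v) p := by
    intro s
    have h := MvPolynomial.comp_aeval_apply (f := fun i => (C (e i) + X * C (v i) : ℝ[X]))
      (Polynomial.aeval (R := ℝ) s) p
    rw [hgdef, ← Polynomial.coe_aeval_eq_eval, h, MvPolynomial.aeval_eq_eval]
    congr 2
    funext i
    simp
    exact mul_comm _ _
  have hg0 : g ≠ 0 := by
    intro h
    have := evg 0
    rw [h, eval_zero, zero_smul, add_zero] at this
    exact he.ne this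
  have hk0 : k ≠ 0 := by
    rintro rfl
    rw [mul_zero, mul_zero] at hg
    exact hg0 hg
  have hdeg : k.natDegree + 2 ≤ d := by
    have h3 : g.natDegree ≤ d := by
      refine natDegree_aeval_le hp _ fun i => ?_
      refine (natDegree_add_le _ _).trans (max_le (by simp) ?_)
      refine natDegree_mul_le.trans ?_
      simp
    have h4 : g.natDegree = k.natDegree + 2 := by
      rw [hg, natDegree_mul (X_sub_C_ne_zero _) (mul_ne_zero (X_sub_C_ne_zero _) hk0),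
        natDegree_mul (X_sub_C_ne_zero _) hk0, natDegree_X_sub_C, natDegree_X_sub_C]
      ring
    omega
  obtain ⟨m, rfl⟩ : ∃ m, d = m + 2 := ⟨d - 2, by omega⟩
  have hkm : k.natDegree ≤ m := by omega
  -- the reversed polynomial
  let R : ℝ[X] := ∑ j ∈ Finset.range (m + 1), C (k.coeff j * (-1) ^ j) * X ^ (m - j)
  have evR : ∀ t : ℝ, t ≠ 0 → R.eval t = t ^ m * k.eval (-t⁻¹) := by
    intro t ht
    rw [eval_eq_sum_range' (Nat.lt_succ_of_le hkm), Finset.mul_sum]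
    simp only [R, eval_finsetSum, eval_mul, eval_C, eval_pow, eval_X]
    refine Finset.sum_congr rfl fun j hj => ?_
    have hj' : j ≤ m := Nat.lt_succ_iff.mp (Finset.mem_range.mp hj)
    have : t ^ m = t ^ (m - j) * t ^ j := by rw [← pow_add, Nat.sub_add_cancel hj']
    rw [this, neg_pow t⁻¹, inv_pow]
    field_simp
  have hchi : chi p e v = (C s2 * X + C 1) * ((C s1 * X + C 1) * R) := by
    refine Polynomial.eq_of_infinite_eval_eq _ _ ?_
    refine Set.Infinite.mono (s := Set.Ioi (0 : ℝ)) ?_ (Set.Ioi_infinite 0)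
    intro t ht
    have ht0 : t ≠ 0 := (ne_of_gt ht)
    show (chi p e v).eval t = _
    have e1 : t • e - v = t • (e + (-t⁻¹) • v) := by
      rw [smul_add, smul_smul, mul_neg, mul_inv_cancel₀ ht0, neg_one_smul, sub_eq_add_neg]
    rw [eval_chi, e1, eval_smul_homog hp, ← evg, hg]
    simp only [eval_mul, eval_sub, eval_add, eval_X, eval_C, evR t ht0]
    field_simp
    ring
  have hc0 := chi_ne_zero hp he v
  unfold rank
  rw [hchi] at hc0 ⊢
  have hc1 := right_ne_zero_of_mul hc0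
  have r1 : ∀ s : ℝ, s ≠ 0 → (C s * X + C 1 : ℝ[X]).roots = {-s⁻¹} := by
    intro s hs
    have := roots_C_mul_X_add_C_of_IsUnit (1 : ℝ) (Units.mk0 s hs)
    rw [Units.val_mk0] at this
    rw [this]
    simp
  rw [roots_mul hc0, roots_mul hc1, r1 s2 h2, r1 s1 h1, Multiset.filter_add, Multiset.filter_add,
    Multiset.card_add, Multiset.card_add, Multiset.filter_singleton, Multiset.filter_singleton,
    if_pos (neg_ne_zero.mpr (inv_ne_zero h2)), if_pos (neg_ne_zero.mpr (inv_ne_zero h1))]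
  simp only [Multiset.card_singleton]
  omega

/-! ### the rank of `(1, 0, 0, 0, 0)` -/

theorem pairing_pos {a b x A B X : ℝ} (ha : 0 < a) (hb : 0 < b) (h : x ^ 2 < a * b) {ε : ℝ}
    (hε : 0 < ε) (hA : 0 ≤ A) (hB : 0 ≤ B) (hX : X ^ 2 ≤ A * B) :
    (X + ε * x) ^ 2 < (A + ε * a) * (B + ε * b) := by
  have h1 := conv_aux hA hB hX ha.le hb.le h.le
  nlinarith [mul_nonneg hε.le (sub_nonneg.mpr h1), mul_pos (mul_pos hε hε) (sub_pos.mpr h)]

theorem bd1 {p : MvPolynomial (Fin 5) ℝ} {d : ℕ} (hp : p.IsHomogeneous d)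
    {e : Fin 5 → ℝ} (he : 0 < MvPolynomial.eval e p) (hK : K5 = hypCone p e) (heU : e ∈ U5)
    {q : Fin 5 → ℝ} (hq : q ∈ K5) (h : q 0 * q 1 = q 3 ^ 2) : MvPolynomial.eval q p = 0 := by
  refine bdry hp he (hK ▸ hq) fun ε hε hmem => ?_
  rw [← hK] at hmem
  obtain ⟨h0, h1, h2, h3, h4⟩ := hmem
  have := pairing_pos heU.1 heU.2.1 heU.2.2.2.1 hε h0 h1 h3
  simp only [Pi.sub_apply, Pi.smul_apply, smul_eq_mul, sub_add_cancel] at this
  rw [h] at this
  exact lt_irrefl _ this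

theorem bd2 {p : MvPolynomial (Fin 5) ℝ} {d : ℕ} (hp : p.IsHomogeneous d)
    {e : Fin 5 → ℝ} (he : 0 < MvPolynomial.eval e p) (hK : K5 = hypCone p e) (heU : e ∈ U5)
    {q : Fin 5 → ℝ} (hq : q ∈ K5) (h : q 0 * q 2 = q 4 ^ 2) : MvPolynomial.eval q p = 0 := by
  refine bdry hp he (hK ▸ hq) fun ε hε hmem => ?_
  rw [← hK] at hmem
  obtain ⟨h0, h1, h2, h3, h4⟩ := hmem
  have := pairing_pos heU.1 heU.2.2.1 heU.2.2.2.2 hε h0 h2 h4
  simp only [Pi.sub_apply, Pi.smul_apply, smul_eq_mul, sub_add_cancel] at this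
  rw [h] at this
  exact lt_irrefl _ this

theorem eval_aeval5 (p : MvPolynomial (Fin 5) ℝ) (f : Fin 5 → ℝ[X]) (t : ℝ) :
    (MvPolynomial.aeval f p).eval t = MvPolynomial.eval (fun i => (f i).eval t) p := by
  have h := MvPolynomial.comp_aeval_apply (f := f) (Polynomial.aeval (R := ℝ) t) p
  rw [← Polynomial.coe_aeval_eq_eval, h, MvPolynomial.aeval_eq_eval]

theorem rank_K5 {p : MvPolynomial (Fin 5) ℝ} {d : ℕ} (hp : p.IsHomogeneous d)
    {e : Fin 5 → ℝ} (he : 0 < MvPolynomial.eval e p) (hK : K5 = hypCone p e) :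
    2 ≤ rank p e ![1, 0, 0, 0, 0] := by
  have heU : e ∈ U5 := mem_U5_of fun u => by
    rw [hK]
    exact dir_mem hp he u
  obtain ⟨a0, b0, c0, hx0, hy0⟩ := heU
  -- vanishing on the first piece of the boundary
  have hR1 : MvPolynomial.aeval (![C (1 / e 1) * X ^ 2, C (e 1), C (e 2), X, C (e 4)] :
      Fin 5 → ℝ[X]) p = 0 := by
    refine Polynomial.eq_zero_of_infinite_isRoot _ ?_
    refine Set.Infinite.mono (s := Set.Ici (1 + e 4 ^ 2 * e 1 / e 2)) ?_ (Set.Ici_infinite _)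
    intro x hx
    have hx' : 1 + e 4 ^ 2 * e 1 / e 2 ≤ x := hx
    have hpos : 0 ≤ e 4 ^ 2 * e 1 / e 2 := by positivity
    have hx1 : 1 ≤ x := by linarith
    have hx2 : e 4 ^ 2 * e 1 / e 2 ≤ x ^ 2 := by nlinarith
    show Polynomial.eval x _ = 0
    rw [eval_aeval5]
    refine bd1 hp he hK ⟨a0, b0, c0, hx0, hy0⟩ ?_ ?_
    · refine ⟨?_, ?_, ?_, ?_, ?_⟩
      · simp; positivity
      · simp; exact b0.le
      · simp; exact c0.le
      · simp; field_simp; rfl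
      · simp
        rw [div_le_iff₀ c0] at hx2
        have : (e 1)⁻¹ * x ^ 2 * e 2 = (x ^ 2 * e 2) / e 1 := by field_simp
        rw [this, le_div_iff₀ b0]
        linarith
    · simp
      field_simp
  -- vanishing on the second piece of the boundary
  have hR2 : ∀ x : ℝ, MvPolynomial.aeval (![C (1 / e 2) * X ^ 2, C (e 1), C (e 2), C x, X] :
      Fin 5 → ℝ[X]) p = 0 := by
    intro x
    refine Polynomial.eq_zero_of_infinite_isRoot _ ?_
    refine Set.Infinite.mono (s := Set.Ici (1 + x ^ 2 * e 2 / e 1)) ?_ (Set.Ici_infinite _)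
    intro y hy
    have hy' : 1 + x ^ 2 * e 2 / e 1 ≤ y := hy
    have hpos : 0 ≤ x ^ 2 * e 2 / e 1 := by positivity
    have hy1 : 1 ≤ y := by linarith
    have hy2 : x ^ 2 * e 2 / e 1 ≤ y ^ 2 := by nlinarith
    show Polynomial.eval y _ = 0
    rw [eval_aeval5]
    refine bd2 hp he hK ⟨a0, b0, c0, hx0, hy0⟩ ?_ ?_
    · refine ⟨?_, ?_, ?_, ?_, ?_⟩
      · simp; positivity
      · simp; exact b0.le
      · simp; exact c0.le
      · simp
        rw [div_le_iff₀ b0] at hy2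
        have : (e 2)⁻¹ * y ^ 2 * e 1 = (y ^ 2 * e 1) / e 2 := by field_simp
        rw [this, le_div_iff₀ c0]
        linarith
      · simp; field_simp; rfl
    · simp
      field_simp
  -- the polynomial in two variables
  set f : Fin 5 → ℝ[X][X] := ![C (C (e 0)) + X, C (C (e 1)), C (C (e 2)), C X, C (C (e 4))]
    with hf
  set F : ℝ[X][X] := MvPolynomial.aeval f p with hF
  have hev : ∀ S : ℝ[X], F.eval S = MvPolynomial.aeval
      (![C (e 0) + S, C (e 1), C (e 2), X, C (e 4)] : Fin 5 → ℝ[X]) p := by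
    intro S
    have h := MvPolynomial.comp_aeval_apply (f := f)
      ((Polynomial.aeval (R := ℝ[X]) S).restrictScalars ℝ) p
    rw [AlgHom.restrictScalars_apply, Polynomial.coe_aeval_eq_eval] at h
    rw [hF, h]
    congr 2
    funext i
    rw [AlgHom.restrictScalars_apply, Polynomial.coe_aeval_eq_eval]
    fin_cases i <;> simp [hf]
  set S1 : ℝ[X] := C (1 / e 1) * X ^ 2 - C (e 0) with hS1
  set S2 : ℝ[X] := C (e 4 ^ 2 / e 2 - e 0) with hS2
  have hF1 : F.eval S1 = 0 := by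
    rw [hev, ← hR1]
    congr 2
    rw [hS1, add_sub_cancel]
  have hF2 : F.eval S2 = 0 := by
    rw [hev]
    refine Polynomial.funext fun x => ?_
    rw [eval_zero, eval_aeval5]
    have h := congrArg (fun P : ℝ[X] => P.eval (e 4)) (hR2 x)
    simp only [eval_aeval5, eval_zero] at h
    rw [← h]
    congr 2
    funext i
    fin_cases i <;> simp [hS2]
    ring
  have hne : S1 ≠ S2 := by
    intro h
    have := congrArg (fun P : ℝ[X] => P.coeff 2) h
    simp [hS1, hS2] at this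
    exact b0.ne' this
  obtain ⟨k, hk⟩ := dvd_iff_isRoot.mpr (show F.IsRoot S2 from hF2)
  have hk1 : k.eval S1 = 0 := by
    rw [hk, eval_mul, eval_sub, eval_X, eval_C] at hF1
    exact (mul_eq_zero.mp hF1).resolve_left (sub_ne_zero.mpr hne)
  obtain ⟨k', hk'⟩ := dvd_iff_isRoot.mpr (show k.IsRoot S1 from hk1)
  rw [hk'] at hk
  -- specialise
  have hg : MvPolynomial.aeval (fun i => C (e i) + X * C ((![1, 0, 0, 0, 0] : Fin 5 → ℝ) i)) p
      = F.map (evalRingHom (e 3)) := by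
    have h := MvPolynomial.comp_aeval_apply (f := f)
      (Polynomial.mapAlgHom (Polynomial.aeval (R := ℝ) (e 3))) p
    have h2 : Polynomial.mapAlgHom (Polynomial.aeval (R := ℝ) (e 3)) F
      = F.map (evalRingHom (e 3)) := rfl
    rw [← h2, hF, h]
    congr 2
    funext i
    fin_cases i <;> simp [hf]
  rw [hk, Polynomial.map_mul, Polynomial.map_mul, Polynomial.map_sub, Polynomial.map_sub,
    map_X, map_C, map_C] at hg
  refine two_le_rank hp he ?_ ?_ _ hg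
  · simp only [hS1, coe_evalRingHom, eval_sub, eval_mul, eval_C, eval_pow, eval_X]
    refine ne_of_lt ?_
    rw [sub_neg, one_div, inv_mul_eq_div, div_lt_iff₀ b0]
    exact hx0
  · simp only [hS2, coe_evalRingHom, eval_C]
    refine ne_of_lt ?_
    rw [sub_neg, div_lt_iff₀ c0]
    exact hy0

theorem extreme_K5 : IsExtremeRay K5 (ray ![1, 0, 0, 0, 0]) := by
  refine ⟨⟨_, ?_, rfl⟩, ?_, ?_⟩
  · intro h
    have := congrFun h 0
    simp at this
  · rintro _ ⟨t, ht, rfl⟩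
    refine ⟨?_, ?_, ?_, ?_, ?_⟩ <;> simp [ht]
  · rintro x hx y hy ⟨t, ht, hxy⟩
    obtain ⟨x0, x1, x2, x3, x4⟩ := hx
    obtain ⟨y0, y1, y2, y3, y4⟩ := hy
    have e1 : x 1 + y 1 = 0 := by
      have := congrFun hxy 1
      simpa using this
    have e2 : x 2 + y 2 = 0 := by
      have := congrFun hxy 2
      simpa using this
    have hx1 : x 1 = 0 := by linarith
    have hy1 : y 1 = 0 := by linarith
    have hx2 : x 2 = 0 := by linarith
    have hy2 : y 2 = 0 := by linarith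
    rw [hx1, mul_zero] at x3
    rw [hx2, mul_zero] at x4
    rw [hy1, mul_zero] at y3
    rw [hy2, mul_zero] at y4
    have z : ∀ {r : ℝ}, r ^ 2 ≤ 0 → r = 0 := fun {r} h =>
      pow_eq_zero_iff (two_ne_zero) |>.mp (le_antisymm h (sq_nonneg r))
    refine ⟨⟨x 0, x0, ?_⟩, ⟨y 0, y0, ?_⟩⟩
    · funext i
      fin_cases i <;> simp [hx1, hx2, z x3, z x4]
    · funext i
      fin_cases i <;> simp [hy1, hy2, z y3, z y4]

/-- There is a pointed full-dimensional homogeneous cone `K` such that, for every polynomial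
`p` hyperbolic along `e` whose hyperbolicity cone is `K`, some extreme ray of `K` is generated
by an element of rank at least two. -/
theorem result : ∃ K : Set (Fin 5 → ℝ), IsHomogeneousCone K ∧
    ∀ (p : MvPolynomial (Fin 5) ℝ) (e : Fin 5 → ℝ), Hyperbolic p e → K = hypCone p e →
      ∃ v : Fin 5 → ℝ, IsExtremeRay K (ray v) ∧ 2 ≤ rank p e v :=
  ⟨K5, K5_homogeneous, fun p e hpe hK => ⟨![1, 0, 0, 0, 0], extreme_K5, by
    obtain ⟨⟨d, hp⟩, he, -⟩ := hpe
    exact rank_K5 hp he hK⟩⟩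

end Pool.Agent.Results.MP_3ab8ef_ag.NotROG
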